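import Mathlib

/-! Averaging over subsets. -/

set_option autoImplicit false
open Finset
open scoped Classical

namespace Pool.Agent.Helper408_EX

variable {V : Type}

theorem card_supersets (U T : Finset V) (N : ℕ) (hTU : T ⊆ U) (hT : T.card ≤ N) :
    ((U.powersetCard N).filter (fun S => T ⊆ S)).card =
      (U.card - T.card).choose (N - T.card) := by
  have h : ((U \ T).powersetCard (N - T.card)).card =
      (U.card - T.card).choose (N - T.card) := by
    rw [card_powersetCard, card_sdiff_of_subset hTU]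
  rw [← h]
  refine card_nbij' (fun S => S \ T) (fun S => S ∪ T) ?_ ?_ ?_ ?_
  · intro S hS
    simp only [coe_filter, mem_powersetCard, Set.mem_ofPred_eq] at hS
    obtain ⟨⟨hSU, hS⟩, hTS⟩ := hS
    rw [mem_coe, mem_powersetCard, card_sdiff_of_subset hTS, hS]
    exact ⟨sdiff_subset_sdiff hSU (Subset.refl _), rfl⟩
  · intro S hS
    rw [mem_coe, mem_powersetCard] at hS
    obtain ⟨hU1, hU2⟩ := hS
    have hd : Disjoint S T := by
      rw [disjoint_left]
      intro x hx hx'
      exact (mem_sdiff.mp (hU1 hx)).2 hx'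
    simp only [coe_filter, mem_powersetCard, Set.mem_ofPred_eq]
    refine ⟨⟨union_subset (hU1.trans sdiff_subset) hTU, ?_⟩, subset_union_right⟩
    rw [card_union_of_disjoint hd, hU2]
    omega
  · intro S hS
    simp only [coe_filter, mem_powersetCard, Set.mem_ofPred_eq] at hS
    exact sdiff_union_of_subset hS.2
  · intro S hS
    rw [mem_coe, mem_powersetCard] at hS
    obtain ⟨hU1, hU2⟩ := hS
    ext x
    simp only [mem_sdiff, mem_union]
    constructor
    · rintro ⟨h1 | h1, h2⟩
      · exact h1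
      · exact absurd h1 h2
    · intro h1
      exact ⟨Or.inl h1, (mem_sdiff.mp (hU1 h1)).2⟩

/-- double counting -/
theorem sum_sub (U : Finset V) (N t : ℕ) (ht : t ≤ N) (G : Finset (Finset V))
    (hG : ∀ T ∈ G, T ⊆ U ∧ T.card = t) :
    ∑ S ∈ U.powersetCard N, (G.filter (· ⊆ S)).card =
      G.card * (U.card - t).choose (N - t) := by
  have h1 : ∀ S : Finset V, (G.filter (· ⊆ S)).card = ∑ T ∈ G, if T ⊆ S then 1 else 0 := by
    intro S
    rw [card_filter]
  simp only [h1]
  rw [sum_comm]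
  rw [sum_congr rfl (g := fun _ => (U.card - t).choose (N - t))]
  · simp
  · intro T hT
    rw [← card_filter, card_supersets U T N (hG T hT).1 (by rw [(hG T hT).2]; exact ht), (hG T hT).2]

/-- If every `N`-subset of `U` that contains no member of `I` has at least `a C(N,t)` members of
`F`, then `F` has at least `(a - C(N,p) |I| / C(|U|,p)) C(|U|,t)` members. -/
theorem average (U : Finset V) (N t p : ℕ) (htN : t ≤ N) (hpN : p ≤ N) (hN : N ≤ U.card)
    (F I : Finset (Finset V)) (hF : ∀ T ∈ F, T ⊆ U ∧ T.card = t)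
    (hI : ∀ T ∈ I, T ⊆ U ∧ T.card = p) (a : ℝ) (ha : a ≤ 1)
    (h : ∀ S ∈ U.powersetCard N, (∀ K ∈ I, ¬ K ⊆ S) →
      a * (N.choose t : ℝ) ≤ ((F.filter (· ⊆ S)).card : ℝ)) :
    (a - (N.choose p : ℝ) * ((I.card : ℝ) / (U.card.choose p : ℝ))) * (U.card.choose t : ℝ) ≤
      (F.card : ℝ) := by
  have s1 := sum_sub U N t htN F hF
  have s2 := sum_sub U N p hpN I hI
  have hall : ∀ S ∈ U.powersetCard N,
      a * (N.choose t : ℝ) - (N.choose t : ℝ) * ((I.filter (· ⊆ S)).card : ℝ) ≤
        ((F.filter (· ⊆ S)).card : ℝ) := by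
    intro S hS
    have hc : (0 : ℝ) ≤ (N.choose t : ℝ) := Nat.cast_nonneg _
    by_cases h0 : ∀ K ∈ I, ¬ K ⊆ S
    · have h1 := h S hS h0
      have h2 : (0 : ℝ) ≤ ((I.filter (· ⊆ S)).card : ℝ) := Nat.cast_nonneg _
      nlinarith
    · push Not at h0
      obtain ⟨K, hK, hKS⟩ := h0
      have h1 : 1 ≤ (I.filter (· ⊆ S)).card := card_pos.2 ⟨K, mem_filter.2 ⟨hK, hKS⟩⟩
      have h2 : (1 : ℝ) ≤ ((I.filter (· ⊆ S)).card : ℝ) := by exact_mod_cast h1
      have h3 : (0 : ℝ) ≤ ((F.filter (· ⊆ S)).card : ℝ) := Nat.cast_nonneg _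
      nlinarith
  have hsum := sum_le_sum hall
  rw [sum_sub_distrib, sum_const, ← mul_sum, ← Nat.cast_sum, ← Nat.cast_sum, s1, s2,
    card_powersetCard, nsmul_eq_mul, Nat.cast_mul, Nat.cast_mul] at hsum
  have c1 : U.card.choose N * N.choose t = U.card.choose t * (U.card - t).choose (N - t) :=
    Nat.choose_mul htN
  have c2 : U.card.choose N * N.choose p = U.card.choose p * (U.card - p).choose (N - p) :=
    Nat.choose_mul hpN
  have c1' : (U.card.choose N : ℝ) * (N.choose t : ℝ) =
      (U.card.choose t : ℝ) * ((U.card - t).choose (N - t) : ℝ) := by exact_mod_cast c1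
  have c2' : (U.card.choose N : ℝ) * (N.choose p : ℝ) =
      (U.card.choose p : ℝ) * ((U.card - p).choose (N - p) : ℝ) := by exact_mod_cast c2
  have p2 : (0 : ℝ) < (U.card.choose p : ℝ) := by exact_mod_cast Nat.choose_pos (by omega)
  have p3 : (0 : ℝ) < ((U.card - t).choose (N - t) : ℝ) := by
    exact_mod_cast Nat.choose_pos (by omega)
  refine le_of_mul_le_mul_right (le_trans (le_of_eq ?_) hsum) p3
  have e2 : ((U.card - p).choose (N - p) : ℝ) =
      (U.card.choose N : ℝ) * (N.choose p : ℝ) / (U.card.choose p : ℝ) := by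
    rw [eq_div_iff p2.ne', c2']
    ring
  rw [e2]
  have e3 : (a - (N.choose p : ℝ) * ((I.card : ℝ) / (U.card.choose p : ℝ))) *
      (U.card.choose t : ℝ) * ((U.card - t).choose (N - t) : ℝ) =
      (a - (N.choose p : ℝ) * ((I.card : ℝ) / (U.card.choose p : ℝ))) *
      ((U.card.choose t : ℝ) * ((U.card - t).choose (N - t) : ℝ)) := by ring
  rw [e3, ← c1']
  field_simp

end Pool.Agent.Helper408_EX
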