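import Pool.Agent.Y47.BU.Cnt

/-! Blow-ups with pairwise different entries. -/

set_option autoImplicit false
open Finset
open scoped Classical
open Pool.Agent.Y47.BU (Bl bl_card)

namespace Pool.Agent.Helper408_EX

theorem coll {V B : Type} [Fintype V] [Fintype B] (a b : B) (hab : a ≠ b) :
    ((univ : Finset (B → V)).filter fun w => w a = w b).card ≤
      Fintype.card V ^ (Fintype.card B - 1) := by
  have h1 : ((univ : Finset (B → V)).filter fun w => w a = w b).card ≤
      (univ : Finset ({j : B // j ≠ b} → V)).card := by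
    refine card_le_card_of_injOn (fun w j => w j.1) (fun _ _ => mem_coe.mpr (mem_univ _)) ?_
    intro w hw w' hw' h
    have a1 := (mem_filter.mp (mem_coe.mp hw)).2
    have a2 := (mem_filter.mp (mem_coe.mp hw')).2
    funext j
    by_cases hj : j = b
    · subst hj
      rw [← a1, ← a2]
      exact congrFun h ⟨a, hab⟩
    · exact congrFun h ⟨j, hj⟩
  refine h1.trans (le_of_eq ?_)
  rw [card_univ, Fintype.card_fun]
  congr 1
  rw [Fintype.card_subtype_compl, Fintype.card_subtype_eq]

theorem mem_Bl {V : Type} [Fintype V] {k T : ℕ} {S : Finset (Fin k → V)} {y : Fin k → Fin T → V} :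
    y ∈ Bl k T S ↔ ∀ f : Fin k → Fin T, (fun i => y i (f i)) ∈ S := by
  unfold Bl
  simp

/-- if `R` has positive density there are `k` disjoint `T`-sets all of whose selections lie in `R` -/
theorem blow (k T : ℕ) (hT : 0 < T) (hk : 0 < k) {δ : ℝ} (hδ : 0 < δ) : ∃ n0 : ℕ,
    ∀ (V : Type) [Fintype V] (R : Finset (Fin k → V)), n0 ≤ Fintype.card V →
    δ * (Fintype.card V : ℝ) ^ k ≤ (R.card : ℝ) →
    ∃ y : Fin k → Fin T → V, Function.Injective (fun q : Fin k × Fin T => y q.1 q.2) ∧
      ∀ f : Fin k → Fin T, (fun i => y i (f i)) ∈ R := by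
  set D := T ^ k with hD
  obtain ⟨n0, hn0⟩ := exists_nat_gt (((k * T : ℕ) : ℝ) ^ 2 / δ ^ D)
  refine ⟨n0 + 1, fun V _ R hn hI => ?_⟩
  set n := Fintype.card V with hnV
  have hn1 : 0 < n := by omega
  have hn' : (0 : ℝ) < n := by exact_mod_cast hn1
  have hb := bl_card (V := V) (n := (n : ℝ)) (by rw [hnV]) hn' hT k R
  have hb' : (n : ℝ) ^ (k * T) * δ ^ D ≤ ((Bl k T R).card : ℝ) := by
    refine le_trans ?_ hb
    refine mul_le_mul_of_nonneg_left ?_ (by positivity)
    refine pow_le_pow_left₀ hδ.le ?_ _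
    rw [le_div_iff₀ (by positivity)]
    exact hI
  by_contra hno
  have h1 : ∀ y ∈ Bl k T R, ¬ Function.Injective (fun q : Fin k × Fin T => y q.1 q.2) := by
    intro y hy hinj
    exact hno ⟨y, hinj, mem_Bl.mp hy⟩
  have h2 : (Bl k T R).card ≤ (k * T) ^ 2 * n ^ (k * T - 1) := by
    let C : (Fin k × Fin T) × (Fin k × Fin T) → Finset (Fin k × Fin T → V) := fun p =>
      univ.filter fun w => w p.1 = w p.2
    have h3 : ((Bl k T R).image fun (y : Fin k → Fin T → V) (q : Fin k × Fin T) =>
        y q.1 q.2) ⊆ ((univ : Finset ((Fin k × Fin T) × (Fin k × Fin T))).filter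
        fun p => p.1 ≠ p.2).biUnion C := by
      intro w hw
      obtain ⟨y, hy, rfl⟩ := mem_image.mp hw
      have h4 := h1 y hy
      rw [Function.not_injective_iff] at h4
      obtain ⟨a, b, hab, hne⟩ := h4
      exact mem_biUnion.mpr ⟨(a, b), mem_filter.mpr ⟨mem_univ _, hne⟩,
        mem_filter.mpr ⟨mem_univ _, hab⟩⟩
    have h5 : ((Bl k T R).image fun (y : Fin k → Fin T → V) (q : Fin k × Fin T) =>
        y q.1 q.2).card = (Bl k T R).card := by
      refine card_image_of_injective _ ?_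
      intro y y' h
      funext i a
      exact congrFun h (i, a)
    rw [← h5]
    have cB : Fintype.card (Fin k × Fin T) = k * T := by
      rw [Fintype.card_prod, Fintype.card_fin, Fintype.card_fin]
    refine (card_le_card h3).trans ((card_biUnion_le).trans
      ((sum_le_card_nsmul _ _ (n ^ (k * T - 1)) ?_).trans ?_))
    · intro p hp
      have h6 := coll (V := V) p.1 p.2 (mem_filter.mp hp).2
      rw [cB] at h6
      refine le_trans (le_of_eq (congrArg card ?_)) h6
      ext w
      simp only [C, mem_filter, mem_univ, true_and]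
    · rw [smul_eq_mul]
      refine Nat.mul_le_mul_right _ ((card_filter_le _ _).trans (le_of_eq ?_))
      rw [card_univ, Fintype.card_prod, cB]
      ring
  have h2' : ((Bl k T R).card : ℝ) ≤ ((k * T : ℕ) : ℝ) ^ 2 * (n : ℝ) ^ (k * T - 1) := by
    exact_mod_cast h2
  have h7 : (n : ℝ) ^ (k * T) = (n : ℝ) ^ (k * T - 1) * n := by
    rw [← pow_succ]
    congr 1
    have : 0 < k * T := Nat.mul_pos hk hT
    omega
  have h8 : (n : ℝ) * δ ^ D ≤ ((k * T : ℕ) : ℝ) ^ 2 := by
    have h9 := hb'.trans h2'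
    rw [h7] at h9
    have h10 : (0 : ℝ) < (n : ℝ) ^ (k * T - 1) := by positivity
    have h11 : (n : ℝ) ^ (k * T - 1) * ((n : ℝ) * δ ^ D) ≤
        (n : ℝ) ^ (k * T - 1) * ((k * T : ℕ) : ℝ) ^ 2 := by
      calc _ = (n : ℝ) ^ (k * T - 1) * n * δ ^ D := by ring
        _ ≤ _ := h9
        _ = _ := by ring
    exact le_of_mul_le_mul_left h11 h10
  have h12 : ((k * T : ℕ) : ℝ) ^ 2 < n * δ ^ D := by
    have h13 : ((n0 + 1 : ℕ) : ℝ) ≤ n := by exact_mod_cast hn
    push_cast at h13
    have h14 : ((k * T : ℕ) : ℝ) ^ 2 / δ ^ D < n := by push_cast at hn0 ⊢; linarith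
    rwa [div_lt_iff₀ (by positivity)] at h14
  linarith

/-- no two elements of `K` are in the relation `B` -/
def Indep {V : Type} [LinearOrder V] (B : V → V → Prop) (K : Finset V) : Prop :=
  ∀ x ∈ K, ∀ z ∈ K, x < z → ¬ B x z

/-- Many `p`-subsets of `S` without two elements in the relation `B` give `p` sets of `T`
elements, one after the other, without such pairs between different sets. -/
theorem box (p T : ℕ) (hT : 0 < T) (hp : 0 < p) {δ : ℝ} (hδ : 0 < δ) : ∃ M0 : ℕ,
    ∀ (V : Type) [LinearOrder V] (S : Finset V) (B : V → V → Prop), M0 ≤ S.card →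
    δ * (S.card : ℝ) ^ p ≤
      (((S.powersetCard p).filter fun K => Indep B K).card : ℝ) →
    ∃ y : Fin p → Fin T → V, Function.Injective (fun q : Fin p × Fin T => y q.1 q.2) ∧
      (∀ i a, y i a ∈ S) ∧ ∀ i j a b, i < j → y i a < y j b ∧ ¬ B (y i a) (y j b) := by
  obtain ⟨n0, hn0⟩ := blow p T hT hp hδ
  refine ⟨n0, fun V _ S B hS hI => ?_⟩
  set I := (S.powersetCard p).filter fun K => Indep B K with hIdef
  set R : Finset (Fin p → {x // x ∈ S}) := univ.filter fun x =>
    ∀ i j, i < j → (x i).1 < (x j).1 ∧ ¬ B (x i).1 (x j).1 with hR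
  have hmem : ∀ K ∈ I, K ⊆ S ∧ K.card = p ∧ ∀ x ∈ K, ∀ z ∈ K, x < z → ¬ B x z := by
    intro K hK
    rw [hIdef, mem_filter, mem_powersetCard] at hK
    exact ⟨hK.1.1, hK.1.2, hK.2⟩
  have hc : I.card ≤ R.card := by
    have key : ∀ K ∈ I, ∃ x ∈ R, K = univ.image fun i => (x i).1 := by
      intro K hK
      obtain ⟨h1, h2, h3⟩ := hmem K hK
      refine ⟨fun i => ⟨K.orderEmbOfFin h2 i, h1 (K.orderEmbOfFin_mem h2 i)⟩, ?_, ?_⟩
      · rw [hR, mem_filter]
        refine ⟨mem_univ _, fun i j hij => ?_⟩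
        have h4 : K.orderEmbOfFin h2 i < K.orderEmbOfFin h2 j := (K.orderEmbOfFin h2).lt_iff_lt.2 hij
        exact ⟨h4, h3 _ (K.orderEmbOfFin_mem h2 i) _ (K.orderEmbOfFin_mem h2 j) h4⟩
      · ext v
        rw [mem_image]
        constructor
        · intro hv
          have h5 : v ∈ Set.range (K.orderEmbOfFin h2) := by
            rw [K.range_orderEmbOfFin h2]
            exact mem_coe.2 hv
          obtain ⟨i, hi⟩ := h5
          exact ⟨i, mem_univ _, hi⟩
        · rintro ⟨i, _, rfl⟩
          exact K.orderEmbOfFin_mem h2 i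
    have hsub : I ⊆ R.image fun x => univ.image fun i => (x i).1 := by
      intro K hK
      obtain ⟨x, hx, h⟩ := key K hK
      exact mem_image.2 ⟨x, hx, h.symm⟩
    exact (card_le_card hsub).trans card_image_le
  have hcV : Fintype.card {x // x ∈ S} = S.card := Fintype.card_coe S
  obtain ⟨y, hy1, hy2⟩ := hn0 {x // x ∈ S} R (by rw [hcV]; exact hS) (by
    rw [hcV]
    exact hI.trans (by exact_mod_cast hc))
  refine ⟨fun i a => (y i a).1, ?_, fun i a => (y i a).2, ?_⟩
  · intro q q' h
    exact hy1 (Subtype.ext h)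
  · intro i j a b hij
    have h := hy2 (fun l => if l = i then a else b)
    rw [hR, mem_filter] at h
    have h2 := h.2 i j hij
    beta_reduce at h2
    rw [if_pos rfl, if_neg hij.ne'] at h2
    exact h2

end Pool.Agent.Helper408_EX
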