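import Pool.Agent.Helper408_EX.Local
import Pool.Agent.Y47.BU.Ram

/-! Covering families between the dominated sets and the connected sets of a graph. -/

set_option autoImplicit false
open Finset
open scoped Classical

namespace Pool.Agent.Helper408_EX

section
variable {V : Type} [LinearOrder V]

/-- some element of `Z` is adjacent to all the others -/
def Star (G : SimpleGraph V) (Z : Finset V) : Prop := ∃ c ∈ Z, ∀ y ∈ Z, y ≠ c → G.Adj c y

/-- `G` induces on `Z` a disjoint union of at least two complete graphs -/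
def Cluster (G : SimpleGraph V) (Z : Finset V) : Prop :=
  (∀ x ∈ Z, ∀ y ∈ Z, ∀ z ∈ Z, G.Adj x y → G.Adj y z → x ≠ z → G.Adj x z) ∧
    ∃ x ∈ Z, ∃ y ∈ Z, x ≠ y ∧ ¬ G.Adj x y

def Fits (G : SimpleGraph V) (F : Finset (Finset V)) (Z : Finset V) : Prop :=
  (Star G Z → Z ∈ F) ∧ (Cluster G Z → Z ∉ F)

/-- groups without edges between them contain `k` points without member of `F` -/
theorem few_graph {t k p T : ℕ} (ht : 2 ≤ t) (hpk : k ≤ p * (t - 1)) {S : Finset V}
    {F : Finset (Finset V)} (G : SimpleGraph V) (hF : ∀ Z ∈ F, Z.card = t)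
    (hfit : ∀ Z ⊆ S, Z.card = t → Cluster G Z → Z ∉ F)
    (hcov : ∀ Y ⊆ S, Y.card = k → ∃ Z ∈ F, Z ⊆ Y)
    (hT : ∀ (α : Type) [LinearOrder α] (A : Finset α), T ≤ A.card → ∀ col : α → α → Bool,
      ∃ (B : Finset α) (c : Bool), B ⊆ A ∧ B.card = t - 1 ∧
        ∀ a ∈ B, ∀ b ∈ B, a < b → col a b = c)
    (y : Fin p → Fin T → V)
    (hinj : Function.Injective (fun q : Fin p × Fin T => y q.1 q.2))
    (hyS : ∀ i a, y i a ∈ S)
    (hy : ∀ i j a b, i < j → y i a < y j b ∧ ¬ G.Adj (y i a) (y j b)) : False := by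
  have h1 : ∀ i : Fin p, ∃ (B : Finset V) (c : Bool), B ⊆ univ.image (y i) ∧ B.card = t - 1 ∧
      ∀ a ∈ B, ∀ b ∈ B, a < b → decide (G.Adj a b) = c := by
    intro i
    refine hT V (univ.image (y i)) ?_ (fun a b => decide (G.Adj a b))
    rw [card_image_of_injective, card_univ, Fintype.card_fin]
    intro a b h
    exact (Prod.mk.inj (@hinj (i, a) (i, b) h)).2
  choose B c hB hBc hcol using h1
  -- a point lies in at most one group
  have hval : ∀ i, ∀ v ∈ B i, ∃ a, y i a = v := by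
    intro i v hv
    obtain ⟨a, _, h⟩ := mem_image.1 (hB i hv)
    exact ⟨a, h⟩
  have hsep : ∀ i j, i ≠ j → ∀ v ∈ B i, ∀ w ∈ B j, v ≠ w ∧ ¬ G.Adj v w := by
    intro i j hij v hv w hw
    obtain ⟨a, rfl⟩ := hval i v hv
    obtain ⟨b, rfl⟩ := hval j w hw
    rcases lt_or_gt_of_ne hij with h | h
    · exact ⟨(hy i j a b h).1.ne, (hy i j a b h).2⟩
    · exact ⟨(hy j i b a h).1.ne', fun h' => (hy j i b a h).2 h'.symm⟩
  have hhom : ∀ i, ∀ v ∈ B i, ∀ w ∈ B i, v ≠ w → (G.Adj v w ↔ c i = true) := by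
    intro i v hv w hw hvw
    rcases lt_or_gt_of_ne hvw with h | h
    · rw [← hcol i v hv w hw h, decide_eq_true_iff]
    · rw [← hcol i w hw v hv h, decide_eq_true_iff]
      exact ⟨fun h => h.symm, fun h => h.symm⟩
  set Y0 : Finset V := univ.biUnion B with hY0
  have hc : Y0.card = p * (t - 1) := by
    rw [hY0, card_biUnion]
    · rw [sum_congr rfl fun i _ => hBc i, sum_const, card_univ, Fintype.card_fin, smul_eq_mul]
    · intro i _ j _ hij
      rw [Function.onFun, disjoint_left]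
      intro v hv hv'
      exact (hsep i j hij v hv v hv').1 rfl
  have hY0S : Y0 ⊆ S := by
    intro v hv
    rw [hY0, mem_biUnion] at hv
    obtain ⟨i, _, hv⟩ := hv
    obtain ⟨a, rfl⟩ := hval i v hv
    exact hyS _ _
  obtain ⟨Y, hY, hYc⟩ := exists_subset_card_eq (s := Y0) (n := k) (by omega)
  obtain ⟨Z, hZF, hZY⟩ := hcov Y (hY.trans hY0S) hYc
  have hZc := hF Z hZF
  have hgrp : ∀ v ∈ Z, ∃ i, v ∈ B i := by
    intro v hv
    have h := hY (hZY hv)
    rw [hY0, mem_biUnion] at h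
    obtain ⟨i, _, h⟩ := h
    exact ⟨i, h⟩
  refine hfit Z (hZY.trans (hY.trans hY0S)) hZc ⟨?_, ?_⟩ hZF
  · intro x hx v hv z hz hxv hvz hxz
    obtain ⟨i, hxi⟩ := hgrp x hx
    obtain ⟨j, hvj⟩ := hgrp v hv
    obtain ⟨l, hzl⟩ := hgrp z hz
    have hij : i = j := by
      by_contra h
      exact (hsep i j h x hxi v hvj).2 hxv
    have hjl : j = l := by
      by_contra h
      exact (hsep j l h v hvj z hzl).2 hvz
    subst hij hjl
    rw [hhom i x hxi z hzl hxz]
    rw [← hhom i x hxi v hvj hxv.ne]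
    exact hxv
  · by_contra hno
    push Not at hno
    obtain ⟨x, hx⟩ : Z.Nonempty := card_pos.1 (by omega)
    obtain ⟨i, hxi⟩ := hgrp x hx
    have hsub : Z ⊆ B i := by
      intro v hv
      rcases eq_or_ne x v with rfl | hxv
      · exact hxi
      · obtain ⟨j, hvj⟩ := hgrp v hv
        have h := hno x hx v hv hxv
        have hij : i = j := by
          by_contra h'
          exact (hsep i j h' x hxi v hvj).2 h
        rw [hij]
        exact hvj
    have := card_le_card hsub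
    rw [hBc, hZc] at this
    omega

/-- counting the sets with a dominating element -/
theorem star_count {t : ℕ} (ht : 1 ≤ t) (G : SimpleGraph V) (S : Finset V)
    (F : Finset (Finset V)) (hF : ∀ Z ∈ F, Z.card = t)
    (hfit : ∀ Z ⊆ S, Z.card = t → Star G Z → Z ∈ F) :
    ∑ c ∈ S, ((S.filter fun y => G.Adj c y).card).choose (t - 1) ≤
      t * (F.filter (· ⊆ S)).card := by
  have h1 : ∑ c ∈ S, ((S.filter fun y => G.Adj c y).card).choose (t - 1) =
      (S.sigma fun c => (S.filter fun y => G.Adj c y).powersetCard (t - 1)).card := by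
    rw [card_sigma]
    exact sum_congr rfl fun c _ => (card_powersetCard _ _).symm
  have h2 : ((F.filter (· ⊆ S)).sigma fun Z => Z).card = t * (F.filter (· ⊆ S)).card := by
    rw [card_sigma, sum_congr rfl (g := fun _ => t)]
    · rw [sum_const, smul_eq_mul, Nat.mul_comm]
    · intro Z hZ
      exact hF Z (mem_filter.1 hZ).1
  rw [h1, ← h2]
  refine card_le_card_of_injOn (fun w : (_ : V) × Finset V =>
    (⟨insert w.1 w.2, w.1⟩ : (_ : Finset V) × V)) ?_ ?_
  · rintro ⟨c, Y⟩ hw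
    rw [mem_coe, mem_sigma, mem_powersetCard] at hw
    obtain ⟨hc, hY, hYc⟩ := hw
    have hcY : c ∉ Y := fun h => G.loopless.irrefl c (mem_filter.1 (hY h)).2
    have hsub : insert c Y ⊆ S := insert_subset hc fun v hv => (mem_filter.1 (hY hv)).1
    rw [mem_coe, mem_sigma, mem_filter]
    have hcard : (insert c Y).card = t := by
      rw [card_insert_of_notMem hcY]
      simp only at hYc
      omega
    refine ⟨⟨hfit _ hsub hcard ⟨c, mem_insert_self _ _, ?_⟩, hsub⟩, mem_insert_self _ _⟩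
    intro v hv hvc
    rcases mem_insert.1 hv with rfl | hv
    · exact absurd rfl hvc
    · exact (mem_filter.1 (hY hv)).2
  · rintro ⟨c, Y⟩ hw ⟨c', Y'⟩ hw' h
    rw [mem_coe, mem_sigma, mem_powersetCard] at hw hw'
    obtain ⟨hc, hY, hYc⟩ := hw
    obtain ⟨hc', hY', hYc'⟩ := hw'
    have e1 : insert c Y = insert c' Y' := congrArg Sigma.fst h
    have e2 : c = c' := congrArg Sigma.snd h
    subst e2
    have hcY : c ∉ Y := fun h => G.loopless.irrefl c (mem_filter.1 (hY h)).2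
    have hcY' : c ∉ Y' := fun h => G.loopless.irrefl c (mem_filter.1 (hY' h)).2
    have e3 : Y = Y' := by
      rw [← erase_insert hcY, e1, erase_insert hcY']
    rw [e3]

end

/-- the analytic part of the count -/
theorem convex_bound (t q : ℕ) (ht : 2 ≤ t) (hq : 1 ≤ q) {ε : ℝ} (hε : 0 < ε) : ∃ η : ℝ, 0 < η ∧
    ∃ M0 : ℕ, 1 ≤ M0 ∧ ∀ (V : Type) (S : Finset V) (d : V → ℕ), M0 ≤ S.card →
    (1 / (q : ℝ) - η) * ((S.card : ℝ) * ((S.card : ℝ) - 1)) ≤ ∑ v ∈ S, (d v : ℝ) →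
    (1 / (q : ℝ) ^ (t - 1) - ε) * ((t : ℝ) * (S.card.choose t : ℝ)) ≤
      ∑ v ∈ S, ((d v).choose (t - 1) : ℝ) := by
  obtain ⟨u, rfl⟩ : ∃ u, t = u + 2 := ⟨t - 2, by omega⟩
  simp only [show u + 2 - 1 = u + 1 from rfl]
  have hq0 : (0 : ℝ) < q := by exact_mod_cast hq
  have hq1 : (1 : ℝ) ≤ q := by exact_mod_cast hq
  set η : ℝ := min (ε / (2 * (u + 1))) (1 / (4 * q)) with hη
  have hη0 : 0 < η := by
    rw [hη]
    positivity
  have hη1 : 2 * η * (u + 1) ≤ ε := by
    have h := min_le_left (ε / (2 * ((u : ℝ) + 1))) (1 / (4 * (q : ℝ)))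
    rw [← hη, le_div_iff₀ (by positivity)] at h
    linarith
  have hη2 : 2 * η ≤ 1 / (q : ℝ) := by
    have h := min_le_right (ε / (2 * ((u : ℝ) + 1))) (1 / (4 * (q : ℝ)))
    rw [← hη] at h
    have h2 : 1 / (4 * (q : ℝ)) = 1 / (q : ℝ) / 4 := by field_simp
    rw [h2] at h
    have h3 : 0 < 1 / (q : ℝ) := by positivity
    linarith
  obtain ⟨M0, hM0⟩ := exists_nat_gt (((u : ℝ) + 1) / η)
  refine ⟨η, hη0, M0 + 1, by omega, fun V S d hM hd => ?_⟩
  set M := S.card with hMdef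
  have hMr : ((M0 + 1 : ℕ) : ℝ) ≤ M := by exact_mod_cast hM
  push_cast at hMr
  have hM1 : (0 : ℝ) < M := by
    have : (0 : ℝ) ≤ M0 := Nat.cast_nonneg _
    linarith
  have hηM : (u : ℝ) + 1 ≤ η * M := by
    rw [div_lt_iff₀ hη0] at hM0
    nlinarith
  set b : ℝ := 1 / (q : ℝ) - 2 * η with hb
  have hb0 : 0 ≤ b := by rw [hb]; linarith
  have hq1' : 1 / (q : ℝ) ≤ 1 := by
    rw [div_le_one hq0]
    exact hq1
  -- power of b
  have hpow : 1 / (q : ℝ) ^ (u + 1) - ε ≤ b ^ (u + 1) := by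
    have h := pow_diff (a := 1 / (q : ℝ)) (b := b) hb0 (by rw [hb]; linarith) u
    have h1 : (1 / (q : ℝ)) ^ u ≤ 1 := pow_le_one₀ (by positivity) hq1'
    have h2 : ((u : ℝ) + 1) * (1 / (q : ℝ)) ^ u * (1 / (q : ℝ) - b) ≤ ε := by
      have h3 : 1 / (q : ℝ) - b = 2 * η := by rw [hb]; ring
      rw [h3]
      have h4 : ((u : ℝ) + 1) * (1 / (q : ℝ)) ^ u ≤ ((u : ℝ) + 1) * 1 :=
        mul_le_mul_of_nonneg_left h1 (by positivity)
      nlinarith
    have h5 : (1 / (q : ℝ)) ^ (u + 1) = 1 / (q : ℝ) ^ (u + 1) := by rw [div_pow, one_pow]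
    rw [h5] at h
    linarith
  -- power mean
  have p2 : ∀ v ∈ S, (((d v - u : ℕ) : ℝ)) ^ (u + 1) ≤
      ((u + 1).factorial : ℝ) * ((d v).choose (u + 1) : ℝ) := by
    intro v _
    have h := Nat.pow_sub_le_descFactorial (d v) (u + 1)
    rw [Nat.descFactorial_eq_factorial_mul_choose] at h
    have e : d v + 1 - (u + 1) = d v - u := by omega
    rw [e] at h
    exact_mod_cast h
  have p3 : (M : ℝ) * ((M : ℝ) * b) ≤ ∑ v ∈ S, ((d v - u : ℕ) : ℝ) := by
    have h' : ∑ v ∈ S, ((d v : ℝ) - u) ≤ ∑ v ∈ S, ((d v - u : ℕ) : ℝ) := by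
      refine sum_le_sum fun v _ => ?_
      rw [sub_le_iff_le_add]
      exact_mod_cast (by omega : d v ≤ d v - u + u)
    rw [sum_sub_distrib, sum_const, nsmul_eq_mul, ← hMdef] at h'
    refine le_trans ?_ h'
    have h1 : (M : ℝ) * ((M : ℝ) * b) ≤ (1 / (q : ℝ) - η) * ((M : ℝ) * ((M : ℝ) - 1)) - M * u := by
      have e : (1 / (q : ℝ) - η) * ((M : ℝ) * ((M : ℝ) - 1)) - M * u - (M : ℝ) * ((M : ℝ) * b) =
          M * (η * M - (1 / (q : ℝ) - η) - u) := by
        rw [hb]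
        ring
      have h2 : 0 ≤ M * (η * M - (1 / (q : ℝ) - η) - u) := by
        apply mul_nonneg hM1.le
        linarith
      linarith
    linarith
  have p4 := pow_sum_div_card_le_sum_pow (s := S) (f := fun v => ((d v - u : ℕ) : ℝ))
    (fun _ _ => Nat.cast_nonneg _) u
  rw [← hMdef] at p4
  have p5 : (M : ℝ) ^ (u + 2) * b ^ (u + 1) ≤ ((u + 1).factorial : ℝ) *
      ∑ v ∈ S, ((d v).choose (u + 1) : ℝ) := by
    have h1 : ((M : ℝ) * ((M : ℝ) * b)) ^ (u + 1) / (M : ℝ) ^ u ≤ ((u + 1).factorial : ℝ) *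
        ∑ v ∈ S, ((d v).choose (u + 1) : ℝ) := by
      refine le_trans ?_ (le_trans p4 ?_)
      · exact div_le_div_of_nonneg_right (pow_le_pow_left₀ (by positivity) p3 _) (by positivity)
      · rw [mul_sum]
        exact sum_le_sum p2
    have h2 : ((M : ℝ) * ((M : ℝ) * b)) ^ (u + 1) / (M : ℝ) ^ u = (M : ℝ) ^ (u + 2) * b ^ (u + 1) := by
      rw [mul_pow, mul_pow, pow_succ (M : ℝ) (u + 1), pow_succ (M : ℝ) u]
      field_simp
    rw [h2] at h1
    exact h1
  have p6 : ((u + 2).factorial : ℝ) * (M.choose (u + 2) : ℝ) ≤ (M : ℝ) ^ (u + 2) := by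
    have h := Nat.descFactorial_le_pow M (u + 2)
    rw [Nat.descFactorial_eq_factorial_mul_choose] at h
    exact_mod_cast h
  have hfac : ((u + 2).factorial : ℝ) = (u + 2) * ((u + 1).factorial : ℝ) := by
    rw [show u + 2 = (u + 1) + 1 by ring, Nat.factorial_succ]
    push_cast
    ring
  have hf0 : (0 : ℝ) < ((u + 1).factorial : ℝ) := by exact_mod_cast Nat.factorial_pos _
  rcases le_total (1 / (q : ℝ) ^ (u + 1) - ε) 0 with h9 | h9
  · have h10 : (1 / (q : ℝ) ^ (u + 1) - ε) * (((u + 2 : ℕ) : ℝ) * (M.choose (u + 2) : ℝ)) ≤ 0 :=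
      mul_nonpos_of_nonpos_of_nonneg h9 (by positivity)
    exact h10.trans (sum_nonneg fun v _ => Nat.cast_nonneg _)
  · refine le_of_mul_le_mul_left ?_ hf0
    calc ((u + 1).factorial : ℝ) * ((1 / (q : ℝ) ^ (u + 1) - ε) * (((u + 2 : ℕ) : ℝ) *
          (M.choose (u + 2) : ℝ))) =
          (((u + 2).factorial : ℝ) * (M.choose (u + 2) : ℝ)) * (1 / (q : ℝ) ^ (u + 1) - ε) := by
          rw [hfac]
          push_cast
          ring
      _ ≤ (M : ℝ) ^ (u + 2) * (1 / (q : ℝ) ^ (u + 1) - ε) := mul_le_mul_of_nonneg_right p6 h9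
      _ ≤ (M : ℝ) ^ (u + 2) * b ^ (u + 1) := mul_le_mul_of_nonneg_left hpow (by positivity)
      _ ≤ _ := p5

end Pool.Agent.Helper408_EX
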