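import Pool.Agent.Helper408_EX.Graph

/-! Covering families between the dominated sets and the connected sets of a graph: the bounds. -/

set_option autoImplicit false
open Finset
open scoped Classical

namespace Pool.Agent.Helper408_EX

theorem pair_of_W {V : Type} [LinearOrder V] (G : SimpleGraph V) {S Z : Finset V}
    (hZ : Z ∈ W 2 G.Adj S) {c : V} (hc : c ∈ Z) : ∃ y ∈ S, G.Adj c y ∧ Z = {c, y} := by
  unfold W at hZ
  rw [mem_filter, mem_powersetCard] at hZ
  obtain ⟨⟨hZS, hZ2⟩, x, z, hE, hA⟩ := hZ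
  have hsub : ({x, z} : Finset V) ⊆ Z := by
    intro v hv
    rw [mem_insert, mem_singleton] at hv
    rcases hv with rfl | rfl
    · exact hE.1
    · exact hE.2.1
  have heq : ({x, z} : Finset V) = Z := by
    refine eq_of_subset_of_card_le hsub ?_
    rw [hZ2, card_pair hA.ne]
  rw [← heq, mem_insert, mem_singleton] at hc
  rcases hc with rfl | rfl
  · exact ⟨z, hZS hE.2.1, hA, heq.symm⟩
  · exact ⟨x, hZS hE.1, hA.symm, by rw [← heq, pair_comm]⟩

theorem handshake {V : Type} [LinearOrder V] (G : SimpleGraph V) (S : Finset V) :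
    2 * (W 2 G.Adj S).card ≤ ∑ c ∈ S, (S.filter fun y => G.Adj c y).card := by
  have h1 : ∀ c ∈ S, ((W 2 G.Adj S).filter fun Z => c ∈ Z).card ≤
      (S.filter fun y => G.Adj c y).card := by
    intro c _
    have hsub : ((W 2 G.Adj S).filter fun Z => c ∈ Z) ⊆
        (S.filter fun y => G.Adj c y).image fun y => ({c, y} : Finset V) := by
      intro Z hZ
      rw [mem_filter] at hZ
      obtain ⟨y, hy, hA, h⟩ := pair_of_W G hZ.1 hZ.2
      exact mem_image.2 ⟨y, mem_filter.2 ⟨hy, hA⟩, h.symm⟩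
    exact (card_le_card hsub).trans card_image_le
  refine le_trans ?_ (sum_le_sum h1)
  simp only [card_filter]
  rw [sum_comm]
  have h2 : ∀ Z ∈ W 2 G.Adj S, ∑ c ∈ S, (if c ∈ Z then 1 else 0) = 2 := by
    intro Z hZ
    unfold W at hZ
    rw [mem_filter, mem_powersetCard] at hZ
    rw [← card_filter]
    have : S.filter (fun c => c ∈ Z) = Z := by
      ext v
      rw [mem_filter]
      exact ⟨fun h => h.2, fun h => ⟨hZ.1.1 h, h⟩⟩
    rw [this, hZ.1.2]
  rw [sum_congr rfl h2, sum_const, smul_eq_mul, Nat.mul_comm]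

theorem local_graph {t k q : ℕ} (ht : 2 ≤ t) (hq : 1 ≤ q) (hk : k ≤ (q + 1) * (t - 1)) {ε : ℝ}
    (hε : 0 < ε) : ∃ M : ℕ, t ≤ M ∧ ∀ (V : Type) [LinearOrder V] (S : Finset V)
    (G : SimpleGraph V) (F : Finset (Finset V)), S.card = M → (∀ Z ∈ F, Z.card = t) →
    (∀ Y ⊆ S, Y.card = k → ∃ Z ∈ F, Z ⊆ Y) → (∀ Z ⊆ S, Z.card = t → Fits G F Z) →
    (1 / (q : ℝ) ^ (t - 1) - ε) * (M.choose t : ℝ) ≤ ((F.filter (· ⊆ S)).card : ℝ) := by
  obtain ⟨η, hη, M1, hM11, hM1⟩ := convex_bound t q ht hq hε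
  obtain ⟨N0, hN0⟩ := density 2 q le_rfl hq (half_pos hη)
  simp only [show 2 - 1 = 1 from rfl, pow_one, Nat.factorial_two] at hN0
  set p := q + 1 with hp
  set N := N0 + 2 + p with hN
  have hcN : (0 : ℝ) < (N.choose p : ℝ) := by exact_mod_cast Nat.choose_pos (by omega)
  set δ : ℝ := η / 2 / (N.choose p : ℝ) / (2 ^ p * p.factorial) with hδ
  have hp0 : (0 : ℝ) < p := by exact_mod_cast (by omega : 0 < p)
  have hδ0 : 0 < δ := by positivity
  obtain ⟨T, hT1, hT⟩ := Pool.Agent.Y47.BU.ramsey Bool (t - 1)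
  obtain ⟨M0, hM0⟩ := box p T (by omega) (by omega) hδ0
  refine ⟨M0 + M1 + N + t + 1 + 2 * p, by omega, fun V _ S G F hS hF hcov hfit => ?_⟩
  set M := M0 + M1 + N + t + 1 + 2 * p with hM
  set I := (S.powersetCard p).filter fun K => Indep G.Adj K with hI
  have hIc : (I.card : ℝ) < δ * (S.card : ℝ) ^ p := by
    by_contra hcon
    push Not at hcon
    obtain ⟨y, h1, h2, h3⟩ := hM0 V S G.Adj (by omega) hcon
    exact few_graph ht hk G hF (fun Z hZ hZc => (hfit Z hZ hZc).2) hcov hT y h1 h2 h3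
  have hIr : (I.card : ℝ) / (M.choose p : ℝ) ≤ η / 2 / (N.choose p : ℝ) := by
    have h1 : ((M : ℝ) / 2) ^ p / p.factorial ≤ (M.choose p : ℝ) := by
      refine le_trans ?_ (Nat.pow_le_choose p M)
      refine div_le_div_of_nonneg_right ?_ (by positivity)
      refine pow_le_pow_left₀ (by positivity) ?_ _
      rw [div_le_iff₀ (by norm_num : (0 : ℝ) < 2)]
      exact_mod_cast (by omega : M ≤ (M + 1 - p) * 2)
    have h2 : (0 : ℝ) < (M.choose p : ℝ) := by exact_mod_cast Nat.choose_pos (by omega)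
    rw [div_le_iff₀ h2]
    calc (I.card : ℝ) ≤ δ * (S.card : ℝ) ^ p := hIc.le
      _ = η / 2 / (N.choose p : ℝ) * (((M : ℝ) / 2) ^ p / p.factorial) := by
          rw [hS, hδ, div_pow]
          field_simp
      _ ≤ _ := mul_le_mul_of_nonneg_left h1 (by positivity)
  have hq0 : (0 : ℝ) < q := by exact_mod_cast hq
  have hq1 : (1 : ℝ) ≤ q := by exact_mod_cast hq
  have hav := average S N 2 p (by omega) (by omega) (by omega) (W 2 G.Adj S) I
    (fun T hT => by
      unfold W at hT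
      rw [mem_filter, mem_powersetCard] at hT
      exact hT.1)
    (fun T hT => by
      rw [hI, mem_filter, mem_powersetCard] at hT
      exact hT.1)
    (1 / (q : ℝ) - η / 2) (by
      have : 1 / (q : ℝ) ≤ 1 := by
        rw [div_le_one hq0]
        exact hq1
      linarith) ?_
  · rw [hS] at hav
    have h1 : (N.choose p : ℝ) * ((I.card : ℝ) / (M.choose p : ℝ)) ≤ η / 2 := by
      calc (N.choose p : ℝ) * ((I.card : ℝ) / (M.choose p : ℝ)) ≤
            (N.choose p : ℝ) * (η / 2 / (N.choose p : ℝ)) := mul_le_mul_of_nonneg_left hIr hcN.le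
        _ = η / 2 := by field_simp
    have h2 : (1 / (q : ℝ) - η) * (M.choose 2 : ℝ) ≤ ((W 2 G.Adj S).card : ℝ) := by
      refine le_trans (mul_le_mul_of_nonneg_right ?_ (Nat.cast_nonneg _)) hav
      linarith
    have h3 : (2 : ℝ) * ((W 2 G.Adj S).card : ℝ) ≤
        ∑ c ∈ S, (((S.filter fun y => G.Adj c y).card : ℕ) : ℝ) := by
      exact_mod_cast handshake G S
    have h4 := hM1 V S (fun c => (S.filter fun y => G.Adj c y).card) (by omega) (by
      rw [Nat.cast_choose_two] at h2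
      rw [hS]
      linarith)
    have h5 : ∑ v ∈ S, ((((S.filter fun y => G.Adj v y).card).choose (t - 1) : ℕ) : ℝ) ≤
        (t : ℝ) * ((F.filter (· ⊆ S)).card : ℝ) := by
      exact_mod_cast star_count (by omega) G S F hF (fun Z hZ hZc => (hfit Z hZ hZc).1)
    have ht0 : (0 : ℝ) < t := by exact_mod_cast (by omega : 0 < t)
    rw [hS] at h4
    refine le_of_mul_le_mul_left ?_ ht0
    refine le_trans (le_of_eq ?_) (h4.trans h5)
    ring
  · intro S' hS' hfree
    rw [mem_powersetCard] at hS'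
    have h1 := lower 2 q le_rfl hq G.Adj N S' hS'.2 (fun K hK hKc => by
      have h2 : ¬ Indep G.Adj K := by
        intro hind
        refine hfree K ?_ hK
        rw [hI, mem_filter, mem_powersetCard]
        exact ⟨⟨hK.trans hS'.1, hKc⟩, hind⟩
      unfold Indep at h2
      push Not at h2
      obtain ⟨x, hx, z, hz, h3, h4⟩ := h2
      exact ⟨x, hx, z, hz, h3, h4⟩)
    simp only [show 2 - 1 = 1 from rfl, pow_one, Nat.factorial_two] at h1
    have h2 := hN0 N (by omega)
    have h3 : (W 2 G.Adj S').card ≤ ((W 2 G.Adj S).filter (· ⊆ S')).card := by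
      refine card_le_card ?_
      intro Z hZ
      unfold W at hZ ⊢
      rw [mem_filter, mem_powersetCard] at hZ
      rw [mem_filter, mem_filter, mem_powersetCard]
      exact ⟨⟨⟨hZ.1.1.trans hS'.1, hZ.1.2⟩, hZ.2⟩, hZ.1.1⟩
    have h4 : ((W 2 G.Adj S').card : ℝ) ≤ (((W 2 G.Adj S).filter (· ⊆ S')).card : ℝ) := by
      exact_mod_cast h3
    refine le_trans ?_ (h4.trans_eq (by congr!))
    have h5 : (0 : ℝ) < (q : ℝ) * ((2 : ℕ) : ℝ) := by positivity
    refine le_of_mul_le_mul_left ?_ h5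
    refine le_trans (le_of_eq ?_) (h2.trans h1)
    ring

/-- the lower bound for families on `n` points with few exceptions -/
theorem global_graph {t k q : ℕ} (ht : 2 ≤ t) (hq : 1 ≤ q) (hk : k ≤ (q + 1) * (t - 1)) {ε : ℝ}
    (hε : 0 < ε) : ∃ δ : ℝ, 0 < δ ∧ ∃ n0 : ℕ, ∀ n, n0 ≤ n → ∀ (G : SimpleGraph (Fin n))
    (F : Finset (Finset (Fin n))),
    (∀ Z ∈ F, Z.card = t) → (∀ Y : Finset (Fin n), Y.card = k → ∃ Z ∈ F, Z ⊆ Y) →
    ((((univ : Finset (Fin n)).powersetCard t).filter fun Z => ¬ Fits G F Z).card : ℝ) ≤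
      δ * (n.choose t : ℝ) →
    (1 / (q : ℝ) ^ (t - 1) - ε) * (n.choose t : ℝ) ≤ (F.card : ℝ) := by
  obtain ⟨M, hM1, hM⟩ := local_graph ht hq hk (half_pos hε)
  have hc : (0 : ℝ) < (M.choose t : ℝ) := by exact_mod_cast Nat.choose_pos hM1
  refine ⟨ε / 2 / (M.choose t : ℝ), by positivity, M, fun n hn G F hF hcov hmix => ?_⟩
  have hQ : (1 : ℝ) ≤ (q : ℝ) ^ (t - 1) := one_le_pow₀ (by exact_mod_cast hq)
  have hcu : (univ : Finset (Fin n)).card = n := by rw [card_univ, Fintype.card_fin]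
  have hav := average (univ : Finset (Fin n)) M t t (by omega) hM1 (by omega) F
    (((univ : Finset (Fin n)).powersetCard t).filter fun Z => ¬ Fits G F Z)
    (fun T hT => ⟨subset_univ _, hF T hT⟩)
    (fun T hT => by
      rw [mem_filter, mem_powersetCard] at hT
      exact hT.1)
    (1 / (q : ℝ) ^ (t - 1) - ε / 2) (by
      have : 1 / (q : ℝ) ^ (t - 1) ≤ 1 := by
        rw [div_le_one (by positivity)]
        exact hQ
      linarith) ?_
  · rw [hcu] at hav
    refine le_trans (mul_le_mul_of_nonneg_right ?_ (Nat.cast_nonneg _)) hav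
    have hcn : (0 : ℝ) < (n.choose t : ℝ) := by
      exact_mod_cast Nat.choose_pos (by omega)
    have h1 : (M.choose t : ℝ) * (((((univ : Finset (Fin n)).powersetCard t).filter
        fun Z => ¬ Fits G F Z).card : ℝ) / (n.choose t : ℝ)) ≤ ε / 2 := by
      have h2 : ((((univ : Finset (Fin n)).powersetCard t).filter
        fun Z => ¬ Fits G F Z).card : ℝ) / (n.choose t : ℝ) ≤ ε / 2 / (M.choose t : ℝ) := by
        rw [div_le_iff₀ hcn]
        exact hmix
      calc _ ≤ (M.choose t : ℝ) * (ε / 2 / (M.choose t : ℝ)) :=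
            mul_le_mul_of_nonneg_left h2 hc.le
        _ = ε / 2 := by field_simp
    linarith
  · intro S hS hfree
    rw [mem_powersetCard] at hS
    refine (hM (Fin n) S G F hS.2 hF (fun Y _ hY => hcov Y hY) (fun Z hZ hZc => ?_)).trans_eq
      (by congr!)
    by_contra hbad
    exact hfree Z (mem_filter.2 ⟨mem_powersetCard.2 ⟨subset_univ _, hZc⟩, hbad⟩) hZ

end Pool.Agent.Helper408_EX
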