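import Mathlib

/-! Greedy cliques in ordered graphs and sets of points whose extremes are joined. -/

set_option autoImplicit false
open Finset
open scoped Classical

namespace Pool.Agent.Helper408_EX

variable {V : Type} [LinearOrder V]

/-- `x` is the least and `z` the greatest element of `Z` -/
def Ext (Z : Finset V) (x z : V) : Prop := x ∈ Z ∧ z ∈ Z ∧ ∀ y ∈ Z, x ≤ y ∧ y ≤ z

/-- the `t`-subsets of `S` whose extremes satisfy `B` -/
noncomputable def W (t : ℕ) (B : V → V → Prop) (S : Finset V) : Finset (Finset V) :=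
  (S.powersetCard t).filter fun Z => ∃ x z, Ext Z x z ∧ B x z

/-- greedy clique -/
theorem greedy (B : V → V → Prop) (S : Finset V) : ∃ K ⊆ S,
    (∀ x ∈ K, ∀ z ∈ K, x < z → ¬ B x z) ∧ ∀ v ∈ S, v ∉ K → ∃ x ∈ K, x < v ∧ B x v := by
  induction S using Finset.induction_on_max with
  | empty => exact ⟨∅, by simp⟩
  | insert a S ha ih =>
    obtain ⟨K, hK, h1, h2⟩ := ih
    by_cases h : ∃ x ∈ K, B x a
    · refine ⟨K, hK.trans (subset_insert _ _), h1, ?_⟩
      intro v hv hvK
      rw [mem_insert] at hv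
      rcases hv with rfl | hv
      · obtain ⟨x, hx, hB⟩ := h
        exact ⟨x, hx, ha x (hK hx), hB⟩
      · exact h2 v hv hvK
    · push Not at h
      refine ⟨insert a K, insert_subset_insert _ hK, ?_, ?_⟩
      · intro x hx z hz hxz
        rw [mem_insert] at hx hz
        rcases hz with rfl | hz
        · rcases hx with rfl | hx
          · exact absurd hxz (lt_irrefl _)
          · exact h x hx
        · rcases hx with rfl | hx
          · exact absurd (ha z (hK hz)) (not_lt.2 hxz.le)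
          · exact h1 x hx z hz hxz
      · intro v hv hvK
        rw [mem_insert, not_or] at hvK
        rw [mem_insert] at hv
        rcases hv with rfl | hv
        · exact absurd rfl hvK.1
        · obtain ⟨x, hx, h3⟩ := h2 v hv hvK.2
          exact ⟨x, mem_insert_of_mem hx, h3⟩

/-- the elements of `S \ K` following `κ ∈ K` and preceding the next element of `K` -/
noncomputable def gap (S K : Finset V) (κ : V) : Finset V :=
  (S \ K).filter fun v => κ < v ∧ ∀ x ∈ K, x < v → x ≤ κ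

theorem gap_unique {S K : Finset V} {κ κ' v : V} (hκ : κ ∈ K) (hκ' : κ' ∈ K) (h : v ∈ gap S K κ)
    (h' : v ∈ gap S K κ') : κ = κ' := by
  unfold gap at h h'
  rw [mem_filter] at h h'
  exact le_antisymm (h'.2.2 κ hκ h.2.1) (h.2.2 κ' hκ' h'.2.1)

theorem gap_sum {B : V → V → Prop} {S K : Finset V} (hK : K ⊆ S)
    (h2 : ∀ v ∈ S, v ∉ K → ∃ x ∈ K, x < v ∧ B x v) :
    ∑ κ ∈ K, (gap S K κ).card + K.card = S.card := by
  have h1 : K.biUnion (gap S K) = S \ K := by
    ext v
    rw [mem_biUnion]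
    constructor
    · rintro ⟨κ, _, h⟩
      exact (mem_filter.1 h).1
    · intro hv
      obtain ⟨x, hx, hxv, _⟩ := h2 v (mem_sdiff.1 hv).1 (mem_sdiff.1 hv).2
      have hne : (K.filter fun x => x < v).Nonempty := ⟨x, mem_filter.2 ⟨hx, hxv⟩⟩
      have hm := max'_mem _ hne
      refine ⟨(K.filter fun x => x < v).max' hne, (mem_filter.1 hm).1, ?_⟩
      unfold gap
      rw [mem_filter]
      exact ⟨hv, (mem_filter.1 hm).2, fun y hy hyv => le_max' _ _ (mem_filter.2 ⟨hy, hyv⟩)⟩
  rw [← card_biUnion, h1, card_sdiff_of_subset hK]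
  · have := card_le_card hK
    omega
  · intro κ hκ κ' hκ' hne
    rw [Function.onFun, disjoint_left]
    intro v hv hv'
    exact hne (gap_unique hκ hκ' hv hv')

theorem step {t : ℕ} (ht : 2 ≤ t) {B : V → V → Prop} {S K : Finset V} (hK : K ⊆ S)
    (h2 : ∀ v ∈ S, v ∉ K → ∃ x ∈ K, x < v ∧ B x v) :
    (W t B (S \ K)).card + ∑ κ ∈ K, (gap S K κ).card.choose (t - 1) ≤ (W t B S).card := by
  set A : Finset (Finset V) := K.biUnion fun κ => (gap S K κ).powersetCard (t - 1) with hA
  have hAc : A.card = ∑ κ ∈ K, (gap S K κ).card.choose (t - 1) := by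
    rw [hA, card_biUnion]
    · exact sum_congr rfl fun κ _ => card_powersetCard _ _
    · intro κ hκ κ' hκ' hne
      rw [Function.onFun, disjoint_left]
      intro Y hY hY'
      rw [mem_powersetCard] at hY hY'
      obtain ⟨v, hv⟩ : Y.Nonempty := card_pos.1 (by omega)
      exact hne (gap_unique hκ hκ' (hY.1 hv) (hY'.1 hv))
  have key : ∀ Y ∈ A, ∃ Z, Z ∈ W t B S ∧ Z \ K = Y ∧ (Z ∩ K).Nonempty := by
    intro Y hY
    rw [hA, mem_biUnion] at hY
    obtain ⟨κ, hκ, hY⟩ := hY
    rw [mem_powersetCard] at hY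
    have hne : Y.Nonempty := card_pos.1 (by omega)
    have hm := max'_mem Y hne
    have hsub : ∀ y ∈ Y, y ∈ S ∧ y ∉ K ∧ κ < y ∧ ∀ x ∈ K, x < y → x ≤ κ := by
      intro y hy
      have h := hY.1 hy
      unfold gap at h
      rw [mem_filter, mem_sdiff] at h
      exact ⟨h.1.1, h.1.2, h.2⟩
    obtain ⟨x, hx, hxv, hB⟩ := h2 _ (hsub _ hm).1 (hsub _ hm).2.1
    have hxκ : x ≤ κ := (hsub _ hm).2.2.2 x hx hxv
    have hxY : x ∉ Y := fun h => (hsub x h).2.1 hx
    refine ⟨insert x Y, ?_, ?_, ⟨x, mem_inter.2 ⟨mem_insert_self _ _, hx⟩⟩⟩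
    · unfold W
      rw [mem_filter, mem_powersetCard]
      refine ⟨⟨?_, ?_⟩, x, Y.max' hne, ⟨mem_insert_self _ _, mem_insert_of_mem hm, ?_⟩, hB⟩
      · intro y hy
        rw [mem_insert] at hy
        rcases hy with rfl | hy
        · exact hK hx
        · exact (hsub y hy).1
      · rw [card_insert_of_notMem hxY, hY.2]
        omega
      · intro y hy
        rw [mem_insert] at hy
        rcases hy with rfl | hy
        · exact ⟨le_rfl, hxv.le⟩
        · exact ⟨hxκ.trans (hsub y hy).2.2.1.le, le_max' _ _ hy⟩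
    · ext y
      rw [mem_sdiff, mem_insert]
      constructor
      · rintro ⟨rfl | h, h3⟩
        · exact absurd hx h3
        · exact h
      · intro h
        exact ⟨Or.inr h, (hsub y h).2.1⟩
  choose! f hf using key
  have h3 : A.card ≤ ((W t B S).filter fun Z => (Z ∩ K).Nonempty).card := by
    refine card_le_card_of_injOn f ?_ ?_
    · intro Y hY
      rw [mem_coe] at hY
      rw [mem_coe, mem_filter]
      exact ⟨(hf Y hY).1, (hf Y hY).2.2⟩
    · intro Y hY Y' hY' h
      rw [mem_coe] at hY hY'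
      rw [← (hf Y hY).2.1, ← (hf Y' hY').2.1, h]
  have h4 : (W t B (S \ K)).card ≤ ((W t B S).filter fun Z => ¬ (Z ∩ K).Nonempty).card := by
    refine card_le_card ?_
    intro Z hZ
    unfold W at hZ ⊢
    rw [mem_filter, mem_powersetCard] at hZ
    rw [mem_filter, mem_filter, mem_powersetCard]
    refine ⟨⟨⟨hZ.1.1.trans sdiff_subset, hZ.1.2⟩, hZ.2⟩, ?_⟩
    rintro ⟨y, hy⟩
    rw [mem_inter] at hy
    exact (mem_sdiff.1 (hZ.1.1 hy.1)).2 hy.2
  have h5 := card_filter_add_card_filter_not (s := W t B S) (fun Z => (Z ∩ K).Nonempty)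
  rw [← hAc]
  omega

theorem pow_diff {a b : ℝ} (hb : 0 ≤ b) (hab : b ≤ a) (n : ℕ) :
    a ^ (n + 1) - b ^ (n + 1) ≤ (n + 1) * a ^ n * (a - b) := by
  induction n with
  | zero => simp
  | succ n ih =>
    have ha : 0 ≤ a := hb.trans hab
    have h1 : b ^ (n + 1) ≤ a ^ (n + 1) := pow_le_pow_left₀ hb hab _
    have h2 := mul_le_mul_of_nonneg_left ih ha
    have h3 := mul_le_mul_of_nonneg_right h1 (sub_nonneg.2 hab)
    push_cast
    calc a ^ (n + 1 + 1) - b ^ (n + 1 + 1) = a * (a ^ (n + 1) - b ^ (n + 1)) + b ^ (n + 1) * (a - b) := by ring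
      _ ≤ a * ((n + 1) * a ^ n * (a - b)) + a ^ (n + 1) * (a - b) := add_le_add h2 h3
      _ = _ := by ring

/-- Let every `(q+1)`-subset of `S` contain two points with `B`; then at least about
`|S| ^ t / (q ^ (t - 1) t!)` of the `t`-subsets of `S` have extremes with `B`. -/
theorem lower (t q : ℕ) (ht : 2 ≤ t) (hq : 1 ≤ q) (B : V → V → Prop) : ∀ (N : ℕ) (S : Finset V),
    S.card = N → (∀ K ⊆ S, K.card = q + 1 → ∃ x ∈ K, ∃ z ∈ K, x < z ∧ B x z) →
    (((N - q * (t - 1) : ℕ) : ℝ)) ^ t ≤ (q : ℝ) ^ (t - 1) * t.factorial * (W t B S).card := by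
  intro N
  induction N using Nat.strong_induction_on with
  | _ N ih =>
  intro S hS hfree
  obtain ⟨u, rfl⟩ : ∃ u, t = u + 2 := ⟨t - 2, by omega⟩
  simp only [show u + 2 - 1 = u + 1 from rfl] at ih ⊢
  have hq0 : (0 : ℝ) < q := by exact_mod_cast hq
  rcases Nat.eq_zero_or_pos (N - q * (u + 1)) with h0 | hA
  · rw [h0]
    simp only [Nat.cast_zero, ne_eq, Nat.add_eq_zero_iff, OfNat.ofNat_ne_zero, and_false, not_false_eq_true, zero_pow]
    positivity
  obtain ⟨K, hK, h1, h2⟩ := greedy B S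
  have hSne : S.Nonempty := card_pos.1 (by omega)
  have hKne : K.Nonempty := by
    by_contra hne
    rw [not_nonempty_iff_eq_empty] at hne
    obtain ⟨v, hv⟩ := hSne
    obtain ⟨x, hx, _⟩ := h2 v hv (by rw [hne]; exact notMem_empty _)
    rw [hne] at hx
    exact notMem_empty _ hx
  have hj1 : 1 ≤ K.card := card_pos.2 hKne
  have hjq : K.card ≤ q := by
    by_contra hlt
    push Not at hlt
    obtain ⟨K', hK', hc⟩ := exists_subset_card_eq (s := K) (n := q + 1) hlt
    obtain ⟨x, hx, z, hz, hxz, hB⟩ := hfree K' (hK'.trans hK) hc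
    exact h1 x (hK' hx) z (hK' hz) hxz hB
  set j := K.card with hj
  have hgs := gap_sum hK h2
  have hst := step (t := u + 2) ht hK h2
  simp only [show u + 2 - 1 = u + 1 from rfl] at hst
  have hcs : (S \ K).card = N - j := by
    rw [card_sdiff_of_subset hK, hS]
  have hih := ih (N - j) (by omega) (S \ K) hcs (fun K' hK' hc => hfree K' (hK'.trans sdiff_subset) hc)
  -- the power mean inequality
  have hj0 : (0 : ℝ) < j := by exact_mod_cast hj1
  have p1 : ((N - q * (u + 1) : ℕ) : ℝ) = (N : ℝ) - q * (u + 1) := by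
    rw [Nat.cast_sub (by omega)]
    push_cast
    ring
  set A : ℝ := ((N - q * (u + 1) : ℕ) : ℝ) with hAdef
  have hA0 : 0 < A := by rw [hAdef]; exact_mod_cast hA
  set A' : ℝ := ((N - j - q * (u + 1) : ℕ) : ℝ) with hA'def
  have hA'0 : 0 ≤ A' := Nat.cast_nonneg _
  have hAA' : A ≤ A' + j := by
    rw [hAdef, hA'def]
    exact_mod_cast (by omega : N - q * (u + 1) ≤ N - j - q * (u + 1) + j)
  have p2 : ∀ κ ∈ K, ((((gap S K κ).card - u : ℕ) : ℝ)) ^ (u + 1) ≤
      ((u + 1).factorial : ℝ) * ((gap S K κ).card.choose (u + 1) : ℝ) := by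
    intro κ _
    have h := Nat.pow_sub_le_descFactorial (gap S K κ).card (u + 1)
    rw [Nat.descFactorial_eq_factorial_mul_choose] at h
    have e : (gap S K κ).card + 1 - (u + 1) = (gap S K κ).card - u := by omega
    rw [e] at h
    exact_mod_cast h
  have p3 : (N : ℝ) - j * (u + 1) ≤ ∑ κ ∈ K, (((gap S K κ).card - u : ℕ) : ℝ) := by
    have h : (S.card : ℝ) = ∑ κ ∈ K, ((gap S K κ).card : ℝ) + j := by
      exact_mod_cast hgs.symm
    have h' : ∑ κ ∈ K, (((gap S K κ).card : ℝ) - u) ≤ ∑ κ ∈ K, (((gap S K κ).card - u : ℕ) : ℝ) := by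
      refine sum_le_sum fun κ _ => ?_
      rw [sub_le_iff_le_add]
      exact_mod_cast (by omega : (gap S K κ).card ≤ (gap S K κ).card - u + u)
    rw [sum_sub_distrib, sum_const, nsmul_eq_mul, ← hj] at h'
    rw [hS] at h
    nlinarith
  have p4 := pow_sum_div_card_le_sum_pow (s := K) (f := fun κ => (((gap S K κ).card - u : ℕ) : ℝ))
    (fun _ _ => Nat.cast_nonneg _) u
  have p5 : (j : ℝ) * A / q ≤ ∑ κ ∈ K, (((gap S K κ).card - u : ℕ) : ℝ) := by
    refine le_trans ?_ p3
    rw [div_le_iff₀ hq0, p1]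
    have : (j : ℝ) ≤ q := by exact_mod_cast hjq
    have hN : (0 : ℝ) ≤ N := Nat.cast_nonneg _
    nlinarith
  have p6 : (j : ℝ) * A ^ (u + 1) ≤ (q : ℝ) ^ (u + 1) * (((u + 1).factorial : ℝ) *
      ∑ κ ∈ K, ((gap S K κ).card.choose (u + 1) : ℝ)) := by
    have h1 : ((j : ℝ) * A / q) ^ (u + 1) / (j : ℝ) ^ u ≤ ((u + 1).factorial : ℝ) *
        ∑ κ ∈ K, ((gap S K κ).card.choose (u + 1) : ℝ) := by
      refine le_trans ?_ (le_trans p4 ?_)
      · rw [← hj]
        exact div_le_div_of_nonneg_right (pow_le_pow_left₀ (by positivity) p5 _) (by positivity)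
      · rw [mul_sum]
        exact sum_le_sum p2
    have h2 : ((j : ℝ) * A / q) ^ (u + 1) / (j : ℝ) ^ u = j * A ^ (u + 1) / q ^ (u + 1) := by
      rw [div_pow, mul_pow, pow_succ (j : ℝ) u]
      field_simp
    rw [h2, div_le_iff₀ (by positivity)] at h1
    linarith
  have p7 : A ^ (u + 2) ≤ A' ^ (u + 2) + (u + 2) * (j * A ^ (u + 1)) := by
    rcases le_total A A' with h | h
    · have h1 := pow_le_pow_left₀ hA0.le h (u + 2)
      have h2 : 0 ≤ ((u : ℝ) + 2) * (j * A ^ (u + 1)) := by positivity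
      linarith
    · have h1 := pow_diff hA'0 h (u + 1)
      have h2 : (((u + 1 : ℕ) : ℝ) + 1) * A ^ (u + 1) * (A - A') ≤ (((u + 1 : ℕ) : ℝ) + 1) * A ^ (u + 1) * j := by
        refine mul_le_mul_of_nonneg_left (by linarith) (by positivity)
      push_cast at h1 h2
      have e : u + 1 + 1 = u + 2 := rfl
      rw [e] at h1
      linarith
  have p8 : ((W (u + 2) B (S \ K)).card : ℝ) + ∑ κ ∈ K, ((gap S K κ).card.choose (u + 1) : ℝ) ≤
      ((W (u + 2) B S).card : ℝ) := by exact_mod_cast hst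
  have hfac : ((u + 2).factorial : ℝ) = (u + 2) * ((u + 1).factorial : ℝ) := by
    rw [show u + 2 = (u + 1) + 1 by ring, Nat.factorial_succ]
    push_cast
    ring
  have hq1 : (0 : ℝ) < (q : ℝ) ^ (u + 1) := by positivity
  calc A ^ (u + 2) ≤ A' ^ (u + 2) + (u + 2) * (j * A ^ (u + 1)) := p7
    _ ≤ (q : ℝ) ^ (u + 1) * (u + 2).factorial * (W (u + 2) B (S \ K)).card +
        (u + 2) * ((q : ℝ) ^ (u + 1) * (((u + 1).factorial : ℝ) *
          ∑ κ ∈ K, ((gap S K κ).card.choose (u + 1) : ℝ))) := by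
        refine add_le_add hih ?_
        exact mul_le_mul_of_nonneg_left p6 (by positivity)
    _ = (q : ℝ) ^ (u + 1) * (u + 2).factorial * (((W (u + 2) B (S \ K)).card : ℝ) +
          ∑ κ ∈ K, ((gap S K κ).card.choose (u + 1) : ℝ)) := by
        rw [hfac]
        ring
    _ ≤ _ := mul_le_mul_of_nonneg_left p8 (by positivity)

end Pool.Agent.Helper408_EX
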