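import Pool.Agent.Helper408_EX.Greedy
import Pool.Agent.Helper408_EX.Avg
import Pool.Agent.Helper408_EX.Box

/-! Covering families without mixed sets. -/

set_option autoImplicit false
open Finset
open scoped Classical

namespace Pool.Agent.Helper408_EX

variable {V : Type} [LinearOrder V]

/-- `P` has `t + 1` elements and contains a member and a non-member of `F` with `t` elements, both
of which contain the least and the greatest element of `P` -/
def Mixed (t : ℕ) (F : Finset (Finset V)) (P : Finset V) : Prop :=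
  P.card = t + 1 ∧ ∃ x z, Ext P x z ∧ ∃ Z ⊆ P, ∃ Z' ⊆ P, Z.card = t ∧ Z'.card = t ∧
    x ∈ Z ∧ z ∈ Z ∧ x ∈ Z' ∧ z ∈ Z' ∧ Z ∈ F ∧ Z' ∉ F

theorem conn {t : ℕ} {F : Finset (Finset V)} {S : Finset V} (hS : ∀ P ⊆ S, ¬ Mixed t F P) :
    ∀ (d : ℕ) (Z Z' : Finset V) (x z : V), Z ⊆ S → Z' ⊆ S → Z.card = t → Z'.card = t →
      Ext Z x z → Ext Z' x z → (Z' \ Z).card = d → Z ∈ F → Z' ∈ F := by
  intro d
  induction d with
  | zero =>
    intro Z Z' x z _ _ hZ hZ' _ _ h0 hF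
    rw [card_eq_zero, sdiff_eq_empty_iff_subset] at h0
    have h := eq_of_subset_of_card_le h0 (by omega)
    rw [h]
    exact hF
  | succ d ih =>
    intro Z Z' x z hZS hZS' hZ hZ' hE hE' hd hF
    have hd' : (Z \ Z').card = d + 1 := by
      rw [← hd]
      exact card_sdiff_comm (by omega)
    obtain ⟨b, hb⟩ : (Z' \ Z).Nonempty := card_pos.1 (by omega)
    obtain ⟨a, ha⟩ : (Z \ Z').Nonempty := card_pos.1 (by omega)
    rw [mem_sdiff] at ha hb
    have hxa : x ≠ a := fun h => ha.2 (h ▸ hE'.1)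
    have hza : z ≠ a := fun h => ha.2 (h ▸ hE'.2.1)
    set Z'' := insert b (Z.erase a) with hZ''
    have hc : Z''.card = t := by
      rw [hZ'', card_insert_of_notMem (fun h => hb.2 (mem_of_mem_erase h)), card_erase_of_mem ha.1]
      have := card_pos.2 ⟨a, ha.1⟩
      omega
    have hx'' : x ∈ Z'' := mem_insert_of_mem (mem_erase.2 ⟨hxa, hE.1⟩)
    have hz'' : z ∈ Z'' := mem_insert_of_mem (mem_erase.2 ⟨hza, hE.2.1⟩)
    have hsub : Z'' ⊆ insert b Z := insert_subset_insert _ (erase_subset _ _)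
    have hPS : insert b Z ⊆ S := insert_subset (hZS' hb.1) hZS
    have hEP : Ext (insert b Z) x z := by
      refine ⟨mem_insert_of_mem hE.1, mem_insert_of_mem hE.2.1, ?_⟩
      intro y hy
      rw [mem_insert] at hy
      rcases hy with rfl | hy
      · exact hE'.2.2 _ hb.1
      · exact hE.2.2 _ hy
    have hF'' : Z'' ∈ F := by
      by_contra hn
      refine hS _ hPS ⟨?_, x, z, hEP, Z, subset_insert _ _, Z'', hsub, hZ, hc, hE.1, hE.2.1,
        hx'', hz'', hF, hn⟩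
      rw [card_insert_of_notMem hb.2, hZ]
    refine ih Z'' Z' x z (hsub.trans hPS) hZS' hc hZ' ⟨hx'', hz'', fun y hy => hEP.2.2 y (hsub hy)⟩
      hE' ?_ hF''
    have e : Z' \ Z'' = (Z' \ Z).erase b := by
      ext y
      rw [mem_sdiff, mem_erase, mem_sdiff, hZ'', mem_insert, mem_erase]
      constructor
      · rintro ⟨h1, h2⟩
        push Not at h2
        refine ⟨h2.1, h1, fun hy => ?_⟩
        have := h2.2 (fun h => ha.2 (h ▸ h1))
        exact this hy
      · rintro ⟨h1, h2, h3⟩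
        refine ⟨h2, ?_⟩
        push Not
        exact ⟨h1, fun _ => h3⟩
    rw [e, card_erase_of_mem (mem_sdiff.2 hb), hd]
    rfl

/-- the lower bound `((N - q(t-1))^t / (q^(t-1) t!)` has the right density -/
theorem density (t q : ℕ) (ht : 2 ≤ t) (hq : 1 ≤ q) {ε : ℝ} (hε : 0 < ε) : ∃ N0 : ℕ, ∀ N, N0 ≤ N →
    (1 / (q : ℝ) ^ (t - 1) - ε) * ((q : ℝ) ^ (t - 1) * t.factorial * (N.choose t : ℝ)) ≤
      (((N - q * (t - 1) : ℕ) : ℝ)) ^ t := by
  obtain ⟨N0, hN0⟩ := exists_nat_gt ((t : ℝ) * (q * (t - 1) : ℕ) / ε)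
  refine ⟨N0 + q * (t - 1) + 1, fun N hN => ?_⟩
  set c := q * (t - 1) with hc
  have hq0 : (0 : ℝ) < q := by exact_mod_cast hq
  have hQ : (1 : ℝ) ≤ (q : ℝ) ^ (t - 1) := one_le_pow₀ (by exact_mod_cast hq)
  have hN1 : (0 : ℝ) < N := by exact_mod_cast (by omega : 0 < N)
  have h1 : ((t.factorial : ℝ)) * (N.choose t : ℝ) ≤ (N : ℝ) ^ t := by
    have h := Nat.descFactorial_le_pow N t
    rw [Nat.descFactorial_eq_factorial_mul_choose] at h
    exact_mod_cast h
  have h2 : (t : ℝ) * c ≤ ε * N := by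
    rw [div_lt_iff₀ hε] at hN0
    have : (N0 : ℝ) ≤ N := by exact_mod_cast (by omega : N0 ≤ N)
    nlinarith
  have h3 : (1 - ε) * (N : ℝ) ^ t ≤ (((N - c : ℕ) : ℝ)) ^ t := by
    obtain ⟨u, rfl⟩ : ∃ u, t = u + 1 := ⟨t - 1, by omega⟩
    have h4 := pow_diff (a := (N : ℝ)) (b := ((N - c : ℕ) : ℝ)) (Nat.cast_nonneg _)
      (by exact_mod_cast Nat.sub_le _ _) u
    have h5 : (N : ℝ) - ((N - c : ℕ) : ℝ) ≤ c := by
      rw [sub_le_iff_le_add]
      exact_mod_cast (by omega : N ≤ c + (N - c))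
    have h6 : ((u : ℝ) + 1) * (N : ℝ) ^ u * ((N : ℝ) - ((N - c : ℕ) : ℝ)) ≤ ε * (N : ℝ) ^ (u + 1) := by
      calc ((u : ℝ) + 1) * (N : ℝ) ^ u * ((N : ℝ) - ((N - c : ℕ) : ℝ)) ≤
            ((u : ℝ) + 1) * (N : ℝ) ^ u * c := mul_le_mul_of_nonneg_left h5 (by positivity)
        _ = (N : ℝ) ^ u * (((u + 1 : ℕ) : ℝ) * c) := by push_cast; ring
        _ ≤ (N : ℝ) ^ u * (ε * N) := mul_le_mul_of_nonneg_left h2 (by positivity)
        _ = _ := by ring
    linarith
  have h7 : (1 / (q : ℝ) ^ (t - 1) - ε) * (q : ℝ) ^ (t - 1) ≤ 1 - ε := by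
    rw [sub_mul, one_div, inv_mul_cancel₀ (by positivity)]
    nlinarith
  have h8 : (0 : ℝ) ≤ (t.factorial : ℝ) * (N.choose t : ℝ) := by positivity
  rcases le_total ((1 / (q : ℝ) ^ (t - 1) - ε)) 0 with h9 | h9
  · have h10 : (1 / (q : ℝ) ^ (t - 1) - ε) * ((q : ℝ) ^ (t - 1) * t.factorial * (N.choose t : ℝ)) ≤ 0 :=
      mul_nonpos_of_nonpos_of_nonneg h9 (by positivity)
    exact h10.trans (by positivity)
  · have h10 : (1 / (q : ℝ) ^ (t - 1) - ε) * ((q : ℝ) ^ (t - 1) * t.factorial * (N.choose t : ℝ)) =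
        (1 / (q : ℝ) ^ (t - 1) - ε) * (q : ℝ) ^ (t - 1) * ((t.factorial : ℝ) * (N.choose t : ℝ)) := by
      ring
    have h11 : (0 : ℝ) ≤ (1 / (q : ℝ) ^ (t - 1) - ε) * (q : ℝ) ^ (t - 1) := by positivity
    rw [h10]
    calc _ ≤ (1 / (q : ℝ) ^ (t - 1) - ε) * (q : ℝ) ^ (t - 1) * (N : ℝ) ^ t :=
          mul_le_mul_of_nonneg_left h1 h11
      _ ≤ (1 - ε) * (N : ℝ) ^ t := mul_le_mul_of_nonneg_right h7 (by positivity)
      _ ≤ _ := h3

/-- many sets without `B` would give a set of `k` elements without member of `F` -/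
theorem few {t k p : ℕ} (ht : 2 ≤ t) (hpk : k ≤ p * (t - 1)) {S : Finset V}
    {F : Finset (Finset V)} (hF : ∀ Z ∈ F, Z.card = t)
    (hcov : ∀ Y ⊆ S, Y.card = k → ∃ Z ∈ F, Z ⊆ Y)
    (y : Fin p → Fin (t - 1) → V)
    (hinj : Function.Injective (fun q : Fin p × Fin (t - 1) => y q.1 q.2))
    (hyS : ∀ i a, y i a ∈ S)
    (hy : ∀ i j a b, i < j → y i a < y j b ∧ ¬ (∃ Z ∈ F, Z ⊆ S ∧ Ext Z (y i a) (y j b))) : False := by
  set Y0 : Finset V := univ.image (fun q : Fin p × Fin (t - 1) => y q.1 q.2) with hY0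
  have hc : Y0.card = p * (t - 1) := by
    rw [hY0, card_image_of_injective _ hinj, card_univ, Fintype.card_prod, Fintype.card_fin,
      Fintype.card_fin]
  have hY0S : Y0 ⊆ S := by
    intro v hv
    rw [hY0, mem_image] at hv
    obtain ⟨q, _, rfl⟩ := hv
    exact hyS _ _
  obtain ⟨Y, hY, hYc⟩ := exists_subset_card_eq (s := Y0) (n := k) (by omega)
  obtain ⟨Z, hZF, hZY⟩ := hcov Y (hY.trans hY0S) hYc
  have hZc := hF Z hZF
  have hZne : Z.Nonempty := card_pos.1 (by omega)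
  have hZ0 : ∀ v ∈ Z, ∃ i a, y i a = v := by
    intro v hv
    have h := hY (hZY hv)
    rw [hY0, mem_image] at h
    obtain ⟨q, _, h⟩ := h
    exact ⟨q.1, q.2, h⟩
  obtain ⟨i, a, hia⟩ := hZ0 _ (min'_mem Z hZne)
  obtain ⟨j, b, hjb⟩ := hZ0 _ (max'_mem Z hZne)
  have hE : Ext Z (y i a) (y j b) := by
    rw [hia, hjb]
    exact ⟨min'_mem _ _, max'_mem _ _, fun v hv => ⟨min'_le _ _ hv, le_max' _ _ hv⟩⟩
  have hle : y i a ≤ y j b := (hE.2.2 _ hE.1).2
  rcases lt_trichotomy i j with h | h | h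
  · exact (hy i j a b h).2 ⟨Z, hZF, hZY.trans (hY.trans hY0S), hE⟩
  · subst h
    have h1 : Z ⊆ univ.image (y i) := by
      intro v hv
      obtain ⟨l, c, rfl⟩ := hZ0 v hv
      have h2 := hE.2.2 _ hv
      rcases lt_trichotomy l i with h | h | h
      · exact absurd h2.1 (not_le.2 (hy l i c a h).1)
      · subst h
        exact mem_image_of_mem _ (mem_univ _)
      · exact absurd h2.2 (not_le.2 (hy i l b c h).1)
    have h2 := card_le_card h1
    have h3 : (univ.image (y i)).card ≤ t - 1 := by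
      refine card_image_le.trans ?_
      rw [card_univ, Fintype.card_fin]
    omega
  · exact absurd hle (not_le.2 (hy j i b a h).1)

theorem local_bound {t k q : ℕ} (ht : 2 ≤ t) (hq : 1 ≤ q) (hk : k ≤ (q + 1) * (t - 1)) {ε : ℝ}
    (hε : 0 < ε) : ∃ M : ℕ, t + 1 ≤ M ∧ ∀ (V : Type) [LinearOrder V] (S : Finset V)
    (F : Finset (Finset V)), S.card = M → (∀ Z ∈ F, Z.card = t) →
    (∀ Y ⊆ S, Y.card = k → ∃ Z ∈ F, Z ⊆ Y) → (∀ P ⊆ S, ¬ Mixed t F P) →
    (1 / (q : ℝ) ^ (t - 1) - ε) * (M.choose t : ℝ) ≤ ((F.filter (· ⊆ S)).card : ℝ) := by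
  obtain ⟨N0, hN0⟩ := density t q ht hq (half_pos hε)
  set p := q + 1 with hp
  set N := N0 + t + p with hN
  have hcN : (0 : ℝ) < (N.choose p : ℝ) := by exact_mod_cast Nat.choose_pos (by omega)
  set δ : ℝ := ε / 2 / (N.choose p : ℝ) / (2 ^ p * p.factorial) with hδ
  have hp0 : (0 : ℝ) < p := by exact_mod_cast (by omega : 0 < p)
  have hδ0 : 0 < δ := by positivity
  obtain ⟨M0, hM0⟩ := box p (t - 1) (by omega) (by omega) hδ0
  refine ⟨M0 + N + t + 1 + 2 * p, by omega, fun V _ S F hS hF hcov hmix => ?_⟩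
  set M := M0 + N + t + 1 + 2 * p with hM
  set B : V → V → Prop := fun x z => ∃ Z ∈ F, Z ⊆ S ∧ Ext Z x z with hB
  set I := (S.powersetCard p).filter fun K => Indep B K with hI
  have hIc : (I.card : ℝ) < δ * (S.card : ℝ) ^ p := by
    by_contra hcon
    push Not at hcon
    obtain ⟨y, h1, h2, h3⟩ := hM0 V S B (by omega) hcon
    exact few ht hk hF hcov y h1 h2 h3
  have hIr : (I.card : ℝ) / (M.choose p : ℝ) ≤ ε / 2 / (N.choose p : ℝ) := by
    have h1 : ((M : ℝ) / 2) ^ p / p.factorial ≤ (M.choose p : ℝ) := by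
      refine le_trans ?_ (Nat.pow_le_choose p M)
      refine div_le_div_of_nonneg_right ?_ (by positivity)
      refine pow_le_pow_left₀ (by positivity) ?_ _
      rw [div_le_iff₀ (by norm_num : (0 : ℝ) < 2)]
      exact_mod_cast (by omega : M ≤ (M + 1 - p) * 2)
    have h2 : (0 : ℝ) < (M.choose p : ℝ) := by exact_mod_cast Nat.choose_pos (by omega)
    rw [div_le_iff₀ h2]
    calc (I.card : ℝ) ≤ δ * (S.card : ℝ) ^ p := hIc.le
      _ = ε / 2 / (N.choose p : ℝ) * (((M : ℝ) / 2) ^ p / p.factorial) := by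
          rw [hS, hδ, div_pow]
          field_simp
      _ ≤ _ := mul_le_mul_of_nonneg_left h1 (by positivity)
  have hQ : (1 : ℝ) ≤ (q : ℝ) ^ (t - 1) := one_le_pow₀ (by exact_mod_cast hq)
  have hav := average S N t p (by omega) (by omega) (by omega) (F.filter (· ⊆ S)) I
    (fun T hT => by
      rw [mem_filter] at hT
      exact ⟨hT.2, hF T hT.1⟩)
    (fun T hT => by
      rw [hI, mem_filter, mem_powersetCard] at hT
      exact hT.1)
    (1 / (q : ℝ) ^ (t - 1) - ε / 2) (by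
      have : 1 / (q : ℝ) ^ (t - 1) ≤ 1 := by
        rw [div_le_one (by positivity)]
        exact hQ
      linarith) ?_
  · rw [hS] at hav
    refine le_trans (mul_le_mul_of_nonneg_right ?_ (Nat.cast_nonneg _)) hav
    have h1 : (N.choose p : ℝ) * ((I.card : ℝ) / (M.choose p : ℝ)) ≤ ε / 2 := by
      calc (N.choose p : ℝ) * ((I.card : ℝ) / (M.choose p : ℝ)) ≤
            (N.choose p : ℝ) * (ε / 2 / (N.choose p : ℝ)) := mul_le_mul_of_nonneg_left hIr hcN.le
        _ = ε / 2 := by field_simp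
    linarith
  · intro S' hS' hfree
    rw [mem_powersetCard] at hS'
    have h1 := lower t q ht hq B N S' hS'.2 (fun K hK hKc => by
      have h2 : ¬ Indep B K := by
        intro hind
        refine hfree K ?_ hK
        rw [hI, mem_filter, mem_powersetCard]
        exact ⟨⟨hK.trans hS'.1, hKc⟩, hind⟩
      unfold Indep at h2
      push Not at h2
      obtain ⟨x, hx, z, hz, h3, h4⟩ := h2
      exact ⟨x, hx, z, hz, h3, h4⟩)
    have h2 := hN0 N (by omega)
    have h3 : (W t B S').card ≤ ((F.filter (· ⊆ S)).filter (· ⊆ S')).card := by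
      refine card_le_card ?_
      intro Z hZ
      unfold W at hZ
      rw [mem_filter, mem_powersetCard] at hZ
      obtain ⟨⟨hZ1, hZ2⟩, x, z, hE, Z0, hZ0F, hZ0S, hE0⟩ := hZ
      rw [mem_filter, mem_filter]
      refine ⟨⟨?_, hZ1.trans hS'.1⟩, hZ1⟩
      exact conn hmix _ Z0 Z x z hZ0S (hZ1.trans hS'.1) (hF _ hZ0F) hZ2 hE0 hE rfl hZ0F
    have h4 : ((W t B S').card : ℝ) ≤ (((F.filter (· ⊆ S)).filter (· ⊆ S')).card : ℝ) := by
      exact_mod_cast h3
    refine le_trans ?_ (h4.trans_eq (by congr!))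
    have h5 : (0 : ℝ) < (q : ℝ) ^ (t - 1) * t.factorial := by positivity
    refine le_of_mul_le_mul_left ?_ h5
    refine le_trans (le_of_eq ?_) (h2.trans h1)
    ring

/-- the lower bound for families on `n` points with few mixed sets -/
theorem global_bound {t k q : ℕ} (ht : 2 ≤ t) (hq : 1 ≤ q) (hk : k ≤ (q + 1) * (t - 1)) {ε : ℝ}
    (hε : 0 < ε) : ∃ δ : ℝ, 0 < δ ∧ ∃ n0 : ℕ, ∀ (V : Type) [Fintype V] [LinearOrder V],
    n0 ≤ Fintype.card V → ∀ F : Finset (Finset V),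
    (∀ Z ∈ F, Z.card = t) → (∀ Y : Finset V, Y.card = k → ∃ Z ∈ F, Z ⊆ Y) →
    (((univ : Finset (Finset V)).filter fun P => Mixed t F P).card : ℝ) ≤
      δ * ((Fintype.card V).choose (t + 1) : ℝ) →
    (1 / (q : ℝ) ^ (t - 1) - ε) * ((Fintype.card V).choose t : ℝ) ≤ (F.card : ℝ) := by
  obtain ⟨M, hM1, hM⟩ := local_bound ht hq hk (half_pos hε)
  have hc : (0 : ℝ) < (M.choose (t + 1) : ℝ) := by exact_mod_cast Nat.choose_pos hM1
  refine ⟨ε / 2 / (M.choose (t + 1) : ℝ), by positivity, M, fun V _ _ hn F hF hcov hmix => ?_⟩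
  set n := Fintype.card V with hnV
  have hQ : (1 : ℝ) ≤ (q : ℝ) ^ (t - 1) := one_le_pow₀ (by exact_mod_cast hq)
  have hcu : (univ : Finset V).card = n := by rw [card_univ]
  have hav := average (univ : Finset V) M t (t + 1) (by omega) hM1 (by omega) F
    ((univ : Finset (Finset V)).filter fun P => Mixed t F P)
    (fun T hT => ⟨subset_univ _, hF T hT⟩)
    (fun T hT => ⟨subset_univ _, (mem_filter.1 hT).2.1⟩)
    (1 / (q : ℝ) ^ (t - 1) - ε / 2) (by
      have : 1 / (q : ℝ) ^ (t - 1) ≤ 1 := by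
        rw [div_le_one (by positivity)]
        exact hQ
      linarith) ?_
  · rw [hcu] at hav
    refine le_trans (mul_le_mul_of_nonneg_right ?_ (Nat.cast_nonneg _)) hav
    have hcn : (0 : ℝ) < (n.choose (t + 1) : ℝ) := by
      exact_mod_cast Nat.choose_pos (by omega)
    have h1 : (M.choose (t + 1) : ℝ) * ((((univ : Finset (Finset V)).filter fun P =>
        Mixed t F P).card : ℝ) / (n.choose (t + 1) : ℝ)) ≤ ε / 2 := by
      have h2 : (((univ : Finset (Finset V)).filter fun P =>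
        Mixed t F P).card : ℝ) / (n.choose (t + 1) : ℝ) ≤ ε / 2 / (M.choose (t + 1) : ℝ) := by
        rw [div_le_iff₀ hcn]
        exact hmix
      calc _ ≤ (M.choose (t + 1) : ℝ) * (ε / 2 / (M.choose (t + 1) : ℝ)) :=
            mul_le_mul_of_nonneg_left h2 hc.le
        _ = ε / 2 := by field_simp
    linarith
  · intro S hS hfree
    rw [mem_powersetCard] at hS
    exact (hM V S F hS.2 hF (fun Y _ hY => hcov Y hY) (fun P hP hPm =>
      hfree P (mem_filter.2 ⟨mem_univ _, hPm⟩) hP)).trans_eq (by congr!)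

/-- the sizes of the extremal families -/
theorem size_bound (t q : ℕ) (ht : 2 ≤ t) (hq : 1 ≤ q) {ε : ℝ} (hε : 0 < ε) : ∃ n0 : ℕ,
    ∀ n, n0 ≤ n → (q : ℝ) * (((n + q - 1) / q).choose t : ℝ) ≤
      (1 / (q : ℝ) ^ (t - 1) + ε) * (n.choose t : ℝ) := by
  obtain ⟨n0, hn0⟩ := exists_nat_gt ((2 : ℝ) ^ t * t * (q + t) / ε)
  refine ⟨n0 + q + 2 * t + 1, fun n hn => ?_⟩
  set L := (n + q - 1) / q with hL
  have hq0 : (0 : ℝ) < q := by exact_mod_cast hq
  have hLq : q * L ≤ n + q := by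
    have := Nat.mul_div_le (n + q - 1) q
    rw [← hL] at this
    omega
  have hLr : (q : ℝ) * L ≤ n + q := by exact_mod_cast hLq
  have hf : (0 : ℝ) < t.factorial := by exact_mod_cast t.factorial_pos
  have h1 : (t.factorial : ℝ) * (L.choose t : ℝ) ≤ (L : ℝ) ^ t := by
    have h := Nat.descFactorial_le_pow L t
    rw [Nat.descFactorial_eq_factorial_mul_choose] at h
    exact_mod_cast h
  have h2 : (((n + 1 - t : ℕ) : ℝ)) ^ t ≤ (t.factorial : ℝ) * (n.choose t : ℝ) := by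
    have h := Nat.pow_sub_le_descFactorial n t
    rw [Nat.descFactorial_eq_factorial_mul_choose] at h
    exact_mod_cast h
  set b : ℝ := ((n + 1 - t : ℕ) : ℝ) with hb
  set a : ℝ := (n : ℝ) + q with ha
  have hb1 : b = (n : ℝ) + 1 - t := by
    rw [hb, Nat.cast_sub (by omega)]
    push_cast
    ring
  have hnr : ((n0 + q + 2 * t + 1 : ℕ) : ℝ) ≤ n := by exact_mod_cast hn
  push_cast at hnr
  have hn00 : (0 : ℝ) ≤ n0 := Nat.cast_nonneg _
  have ht0 : (2 : ℝ) ≤ t := by exact_mod_cast ht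
  have hb0 : 0 < b := by rw [hb1]; linarith
  have hba : b ≤ a := by rw [hb1, ha]; linarith
  have hab : a ≤ 2 * b := by rw [hb1, ha]; linarith
  have h3 : a ^ t ≤ (1 + ε) * b ^ t := by
    obtain ⟨u, rfl⟩ : ∃ u, t = u + 1 := ⟨t - 1, by omega⟩
    have h4 := pow_diff hb0.le hba u
    have h5 : a - b ≤ q + (u + 1 : ℕ) := by rw [hb1, ha]; push_cast; linarith
    have ha0 : 0 < a := hb0.trans_le hba
    have h6 : ((u : ℝ) + 1) * a ^ u * (a - b) ≤ ε * b ^ (u + 1) := by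
      have h7 : a ^ (u + 1) ≤ (2 * b) ^ (u + 1) := pow_le_pow_left₀ ha0.le hab _
      have h8 : (2 : ℝ) ^ (u + 1) * (u + 1 : ℕ) * (q + (u + 1 : ℕ)) ≤ ε * a := by
        rw [div_lt_iff₀ hε] at hn0
        have : (n0 : ℝ) ≤ a := by rw [ha]; push_cast at hnr; linarith
        nlinarith
      have h9 : (2 : ℝ) ^ (u + 1) * (((u : ℝ) + 1) * a ^ u * (a - b)) ≤
          (2 : ℝ) ^ (u + 1) * (ε * b ^ (u + 1)) := by
        calc (2 : ℝ) ^ (u + 1) * (((u : ℝ) + 1) * a ^ u * (a - b)) ≤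
              (2 : ℝ) ^ (u + 1) * (((u : ℝ) + 1) * a ^ u * (q + (u + 1 : ℕ))) := by
              refine mul_le_mul_of_nonneg_left ?_ (by positivity)
              exact mul_le_mul_of_nonneg_left h5 (by positivity)
          _ = a ^ u * ((2 : ℝ) ^ (u + 1) * (u + 1 : ℕ) * (q + (u + 1 : ℕ))) := by push_cast; ring
          _ ≤ a ^ u * (ε * a) := mul_le_mul_of_nonneg_left h8 (by positivity)
          _ = ε * a ^ (u + 1) := by ring
          _ ≤ ε * (2 * b) ^ (u + 1) := mul_le_mul_of_nonneg_left h7 hε.le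
          _ = _ := by rw [mul_pow]; ring
      exact le_of_mul_le_mul_left h9 (by positivity)
    linarith
  have hQ : (1 : ℝ) ≤ (q : ℝ) ^ (t - 1) := one_le_pow₀ (by exact_mod_cast hq)
  refine le_of_mul_le_mul_left ?_ (mul_pos hf (by positivity : (0 : ℝ) < (q : ℝ) ^ (t - 1)))
  have hqt : (q : ℝ) ^ (t - 1) * q = (q : ℝ) ^ t := by
    rw [← pow_succ]
    congr 1
    omega
  calc (t.factorial : ℝ) * (q : ℝ) ^ (t - 1) * ((q : ℝ) * (L.choose t : ℝ)) =
        ((q : ℝ) ^ (t - 1) * q) * ((t.factorial : ℝ) * (L.choose t : ℝ)) := by ring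
    _ ≤ ((q : ℝ) ^ (t - 1) * q) * (L : ℝ) ^ t := mul_le_mul_of_nonneg_left h1 (by positivity)
    _ = ((q : ℝ) * L) ^ t := by rw [hqt, mul_pow]
    _ ≤ a ^ t := pow_le_pow_left₀ (by positivity) hLr _
    _ ≤ (1 + ε) * b ^ t := h3
    _ ≤ (1 + ε) * ((t.factorial : ℝ) * (n.choose t : ℝ)) := mul_le_mul_of_nonneg_left h2 (by positivity)
    _ ≤ (1 + ε * (q : ℝ) ^ (t - 1)) * ((t.factorial : ℝ) * (n.choose t : ℝ)) := by
        refine mul_le_mul_of_nonneg_right ?_ (by positivity)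
        nlinarith
    _ = _ := by
        field_simp

end Pool.Agent.Helper408_EX
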